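import Pool.Agent.CvP.Cls

/-!
# Package CvP-Deg: the degree modulo `d` (page 5.4)

`dg : Cl → ZMod d` (multiplicative): the colength modulo `d`; well defined: `colen_cl`: `cl I =
cl J` implies that the
colengths are congruent modulo `d` (`cl_eq`, `E_colen`, `colen_mul` with `fin_quot P`).
`map_one'`, `map_mul'`: the chosen
ideals and `colen_cl`, `cl_mul`, `cl_surj`.
-/

set_option autoImplicit false

namespace Pool.Agent.CvP

open Pool.Agent.CvA Pool.Agent.CvR Pool.Agent.CvI

variable {k A B : Type} [Field k] [CommRing A] [IsDomain A] [Algebra k A] [CommRing B]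
  [Algebra k B] {d : ℕ} {F : Flt k A B d} (P : Md F) {R : Type} [CommRing R] [IsDedekindDomain R]
  [Algebra k R] [Algebra A R] [IsScalarTower k A R] [IsLocalization.Away P.D R]

private theorem span_ne_Deg {N : ℕ} {g : A} (hg : g ∈ P.E N) :
    Ideal.span {algebraMap A R g} ≠ ⊥ := by
  intro h
  rw [Ideal.span_singleton_eq_bot] at h
  exact E_ne P hg h

private theorem mul_Deg {N : ℕ} {g : A} (hg : g ∈ P.E N) {I : Ideal R} (hI : I ≠ ⊥) :
    ((colen k (Ideal.span {algebraMap A R g} * I) : ℕ) : ZMod d) = (colen k I : ℕ) := by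
  rw [colen_mul (fun b hb => fin_quot P hb) (span_ne_Deg P hg) hI, E_colen P hg]
  push_cast
  rw [ZMod.natCast_self, zero_mul, zero_add]

theorem colen_cl {I J : Ideal R} (hI : I ≠ ⊥) (hJ : J ≠ ⊥) (h : cl P I = cl P J) :
    ((colen k I : ℕ) : ZMod d) = (colen k J : ℕ) := by
  obtain ⟨N, M, g, h', hg, hh, e⟩ := (cl_eq P hI hJ).1 h
  rw [← mul_Deg P hg hI, ← mul_Deg P hh hJ, e]

/-- the degree modulo `d` -/
noncomputable def dg : Cl P R →* Multiplicative (ZMod d) where
  toFun c := Multiplicative.ofAdd ((colen k (cl_surj P c).choose : ℕ) : ZMod d)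
  map_one' := by
    have h := (cl_surj P (1 : Cl P R)).choose_spec
    have h1 : cl P (Ideal.span {algebraMap A R (1 : A)}) = (1 : Cl P R) := cl_span P (E_one P)
    rw [colen_cl P h.1 (span_ne_Deg P (E_one P)) (h.2.trans h1.symm), E_colen P (E_one P),
      Nat.mul_zero, Nat.cast_zero, ofAdd_zero]
  map_mul' := by
    intro c c'
    have h := (cl_surj P (c * c')).choose_spec
    have h1 := (cl_surj P c).choose_spec
    have h2 := (cl_surj P c').choose_spec
    have h3 : cl P ((cl_surj P c).choose * (cl_surj P c').choose) = c * c' := by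
      rw [cl_mul P h1.1 h2.1, h1.2, h2.2]
    rw [colen_cl P h.1 (mul_ne_zero h1.1 h2.1) (h.2.trans h3.symm),
      colen_mul (fun b hb => fin_quot P hb) h1.1 h2.1, Nat.cast_add, ofAdd_add]

theorem dg_cl {I : Ideal R} (hI : I ≠ ⊥) :
    dg P (cl P I) = Multiplicative.ofAdd ((colen k I : ℕ) : ZMod d) := by
  have h := (cl_surj P (cl P I)).choose_spec
  show Multiplicative.ofAdd ((colen k (cl_surj P (cl P I)).choose : ℕ) : ZMod d) = _
  rw [colen_cl P h.1 hI h.2]

variable (R)

/-- the classes of degree divisible by `d` -/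
noncomputable abbrev Gr : Subgroup (Cl P R) := (dg P (R := R)).ker

end Pool.Agent.CvP
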