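import Pool.Agent.CvP.Num
import Pool.Agent.CvI.Rec
import Pool.Agent.CvZ.Defs

/-!
# Package CvP-Main: the numerical data of the curve (page 5.6)

`zd`: the sequence `an k R`. The image of `dg` is `δ ℤ / d ℤ` for some `δ ∣ d`: let `δ` be the
least positive `n` such that
`n mod d` is in the image (`n = d` is one); the set of the `n : ℕ` (or `ℤ`) with `n mod d` in the
image is closed under
addition and subtraction, so it is the set of the multiples of `δ`, and `δ ∣ d`. For `n ≥ n1` `an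
n` is the sum over
the classes `c` with `dg c = n` of the number in `card_cls` (`Nat.card` of a sigma type /
fiberwise,
`Cl` is finite by `fin_cl`); the number of these classes is the order of the kernel `Gr` if `δ ∣
n` (a coset of the
kernel: `c ↦ c₀ c`) and `0` otherwise. `a_0 = 1` and the recursion: `an_zero`, `an_rec` with `fq
P`.
-/

set_option autoImplicit false

namespace Pool.Agent.CvP

open Pool.Agent.CvA Pool.Agent.CvR Pool.Agent.CvI Pool.Agent.CvZ

variable {k A B : Type} [Field k] [Finite k] [CommRing A] [IsDomain A] [Algebra k A] [CommRing B]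
  [Algebra k B] {d : ℕ} {F : Flt k A B d} (P : Md F) (R : Type) [CommRing R] [IsDedekindDomain R]
  [Algebra k R] [Algebra A R] [IsScalarTower k A R] [IsLocalization.Away P.D R]

/-- the image of a homomorphism to the integers modulo `d` -/
private lemma image_Main {G : Type} [CommGroup G] {d : ℕ} (hd : 1 ≤ d)
    (f : G →* Multiplicative (ZMod d)) : ∃ δ : ℕ, 1 ≤ δ ∧ δ ∣ d ∧
      ∀ n : ℕ, (∃ c, f c = Multiplicative.ofAdd ((n : ℕ) : ZMod d)) ↔ δ ∣ n := by
  let K : AddSubgroup ℤ :=
    { carrier := {n | ∃ c, f c = Multiplicative.ofAdd ((n : ℤ) : ZMod d)}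
      zero_mem' := ⟨1, by rw [map_one, Int.cast_zero, ofAdd_zero]⟩
      add_mem' := by
        rintro a b ⟨c, hc⟩ ⟨c', hc'⟩
        exact ⟨c * c', by rw [map_mul, hc, hc', Int.cast_add, ofAdd_add]⟩
      neg_mem' := by
        rintro a ⟨c, hc⟩
        exact ⟨c⁻¹, by rw [map_inv, hc, Int.cast_neg, ofAdd_neg]⟩ }
  obtain ⟨a, ha⟩ := Int.subgroup_cyclic K
  have hK : ∀ n : ℤ, n ∈ K ↔ a ∣ n := by
    intro n
    rw [ha, ← AddSubgroup.zmultiples_eq_closure, Int.mem_zmultiples_iff]
  have hmem : ∀ n : ℤ, n ∈ K ↔ ∃ c, f c = Multiplicative.ofAdd ((n : ℤ) : ZMod d) :=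
    fun n => Iff.rfl
  have hd' : (a.natAbs : ℕ) ∣ d := by
    have h1 : (d : ℤ) ∈ K := (hmem _).2 ⟨1, by
      rw [map_one, Int.cast_natCast, ZMod.natCast_self, ofAdd_zero]⟩
    rw [hK] at h1
    exact Int.natAbs_dvd_natAbs.2 h1
  refine ⟨a.natAbs, ?_, hd', fun n => ?_⟩
  · rcases Nat.eq_zero_or_pos a.natAbs with h0 | h0
    · rw [h0, zero_dvd_iff] at hd'
      omega
    · exact h0
  · have h2 := hmem (n : ℤ)
    rw [hK, Int.cast_natCast] at h2
    rw [← h2]
    exact Int.dvd_natCast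

private lemma fib_Main {G : Type} [CommGroup G] {d : ℕ} (f : G →* Multiplicative (ZMod d))
    (c₀ : G) : Nat.card {c // f c = f c₀} = Nat.card f.ker := by
  exact Nat.card_congr (f.fiberEquivKer c₀)

theorem zd : ZD (Nat.card k) P.n1 d (pa d + d * (1 + P.Dl)) (Nat.card (Gr P R)) (nj k R) := by
  classical
  have hfq : Fq k R := fq P
  obtain ⟨δ, h1, h2, h3⟩ := image_Main F.one_le (dg P (R := R))
  refine ⟨an k R, δ, an_zero hfq, h1, h2, an_rec hfq, ?_⟩
  intro n hn
  have hcl : Finite (Cl P R) := fin_cl P R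
  have _ : Fintype (Cl P R) := Fintype.ofFinite _
  have hfin : Finite {I : Ideal R // I ≠ ⊥ ∧ colen k I = n} := hfq.num n
  let e : {I : Ideal R // I ≠ ⊥ ∧ colen k I = n} ≃
      Σ c : Cl P R, {b : Ideal R // b ≠ ⊥ ∧ colen k b = n ∧ cl P b = c} :=
    { toFun := fun I => ⟨cl P I.1, ⟨I.1, I.2.1, I.2.2, rfl⟩⟩
      invFun := fun x => ⟨x.2.1, x.2.2.1, x.2.2.2.1⟩
      left_inv := fun I => rfl
      right_inv := by
        rintro ⟨c, b, hb, hbn, rfl⟩
        rfl }
  have hfc : ∀ c : Cl P R, Finite {b : Ideal R // b ≠ ⊥ ∧ colen k b = n ∧ cl P b = c} := by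
    intro c
    exact Finite.of_injective
      (fun x => (⟨x.1, x.2.1, x.2.2.1⟩ : {I : Ideal R // I ≠ ⊥ ∧ colen k I = n}))
      (fun x y h => Subtype.ext (congrArg (fun z => z.1) h))
  have hsum : an k R n * Nat.card k ^ (pa d + d * (1 + P.Dl)) =
      ∑ c : Cl P R, if dg P c = Multiplicative.ofAdd ((n : ℕ) : ZMod d) then
        Nat.card k ^ (n + 1) else 0 := by
    unfold an
    rw [Nat.card_congr e, Nat.card_sigma, Finset.sum_mul]
    refine Finset.sum_congr rfl fun c _ => ?_
    by_cases hc : dg P c = Multiplicative.ofAdd ((n : ℕ) : ZMod d)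
    · rw [if_pos hc]
      exact card_cls P c hn hc
    · rw [if_neg hc]
      have h0 : IsEmpty {b : Ideal R // b ≠ ⊥ ∧ colen k b = n ∧ cl P b = c} := by
        refine ⟨?_⟩
        rintro ⟨b, hb, hbn, rfl⟩
        exact hc (by rw [dg_cl P hb, hbn])
      rw [Nat.card_of_isEmpty, zero_mul]
  rw [hsum, ← Finset.sum_filter, Finset.sum_const, smul_eq_mul]
  have hcard : (Finset.univ.filter fun c : Cl P R =>
      dg P c = Multiplicative.ofAdd ((n : ℕ) : ZMod d)).card =
      if δ ∣ n then Nat.card (Gr P R) else 0 := by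
    split_ifs with hδ
    · obtain ⟨c₀, hc₀⟩ := (h3 n).2 hδ
      rw [← fib_Main (dg P (R := R)) c₀, Nat.card_eq_fintype_card, Fintype.card_subtype]
      congr 1
      ext c
      rw [hc₀]
    · rw [Finset.card_eq_zero, Finset.filter_eq_empty_iff]
      intro c _ hc
      exact hδ ((h3 n).1 ⟨c, hc⟩)
  rw [hcard]
  split_ifs <;> simp

end Pool.Agent.CvP
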