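import Pool.Agent.CvP.Rel

/-!
# Package CvP-Cls: the ray class group (page 5.4)

`cl_span`: the class of `g ∈ E N` is `1` (`cl ⊤ = 1`, `1 ∈ E 0`; `cl_eq`). `exists_inv`: every
class has an inverse:
`g ∈ E N ∩ I` for `N = colen I + n1` (`exists_E`, `1 ≤ d`), `span {g} = I * J`
(`Ideal.dvd_span_singleton`,
`Ideal.dvd_iff_le`).

`cl_gen`: if `cl J = 1` then `J = span {g}` with `g ∈ E N`, `colen J = d N`: `g1 J = h1 R`, so
`h1 = g1 r` with
`r ∈ J` (as `h1 ∈ g1 J`) and `J = r R` (cancel `g1 ≠ 0`), `E_cancel`, `E_colen`.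

`compl`: the complement of an ideal: `g ∈ E N ∩ a` gives `b` with `a b = g R`, `colen a + colen b
= d N`, `b ≠ ⊥`,
`cl a * cl b = 1` (`Ideal.dvd_iff_le`, `colen_mul` with `fin_quot P`, `E_colen`).
-/

set_option autoImplicit false
set_option linter.unusedSectionVars false

namespace Pool.Agent.CvP

open Pool.Agent.CvA Pool.Agent.CvR Pool.Agent.CvI
open scoped nonZeroDivisors

variable {k A B : Type} [Field k] [CommRing A] [IsDomain A] [Algebra k A] [CommRing B]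
  [Algebra k B] {d : ℕ} {F : Flt k A B d} (P : Md F) {R : Type} [CommRing R] [IsDedekindDomain R]
  [Algebra k R] [Algebra A R] [IsScalarTower k A R] [IsLocalization.Away P.D R]

omit [IsDedekindDomain R] in
private theorem top_ne_Cls (J : Ideal R) (hJ : J ≠ ⊥) : (⊤ : Ideal R) ≠ ⊥ := fun h =>
  hJ (le_bot_iff.1 (by
    rw [← h]
    exact le_top))

private theorem cl_top_Cls (hT : (⊤ : Ideal R) ≠ ⊥) : cl P (⊤ : Ideal R) = (1 : Cl P R) := by
  unfold cl
  rw [dif_pos hT]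
  have h1 : (⟨⊤, mem_nonZeroDivisors_of_ne_zero hT⟩ : (Ideal R)⁰) = 1 :=
    Subtype.ext Ideal.one_eq_top.symm
  rw [h1, Con.coe_one]

private theorem span_ne_Cls {N : ℕ} {g : A} (hg : g ∈ P.E N) :
    Ideal.span {algebraMap A R g} ≠ ⊥ := by
  intro h
  rw [Ideal.span_singleton_eq_bot] at h
  exact E_ne P hg h

theorem cl_span {N : ℕ} {g : A} (hg : g ∈ P.E N) :
    cl P (Ideal.span {algebraMap A R g}) = (1 : Cl P R) := by
  have h0 := span_ne_Cls P (R := R) hg
  have hT := top_ne_Cls _ h0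
  rw [← cl_top_Cls P hT, cl_eq P h0 hT]
  refine ⟨0, N, 1, g, E_one P, hg, ?_⟩
  rw [map_one, Ideal.span_singleton_one, Ideal.top_mul, Ideal.mul_top]

theorem cl_gen {J : Ideal R} (hJ : J ≠ ⊥) (h : cl P J = 1) : ∃ (N : ℕ) (g : A), g ∈ P.E N ∧
    J = Ideal.span {algebraMap A R g} ∧ colen k J = d * N := by
  have hT := top_ne_Cls J hJ
  rw [← cl_top_Cls P hT, cl_eq P hJ hT] at h
  obtain ⟨N, M, g, h1, hg, hh, e⟩ := h
  rw [Ideal.mul_top] at e
  have hm : algebraMap A R h1 ∈ Ideal.span {algebraMap A R g} * J := by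
    rw [e]
    exact Ideal.mem_span_singleton_self _
  obtain ⟨r, -, hr⟩ := Ideal.mem_span_singleton_mul.1 hm
  obtain ⟨-, w, hw, hwr⟩ := E_cancel P hg hh hr
  have hJr : J = Ideal.span {algebraMap A R w} := by
    refine mul_left_cancel₀ (span_ne_Cls P (R := R) hg) ?_
    rw [e, hwr, Ideal.span_singleton_mul_span_singleton, hr]
  refine ⟨M - N, w, hw, hJr, ?_⟩
  rw [hJr]
  exact E_colen P hw

theorem compl {a : Ideal R} (ha : a ≠ ⊥) {N : ℕ} {g : A} (hg : g ∈ P.E N)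
    (h : algebraMap A R g ∈ a) : ∃ b : Ideal R, b ≠ ⊥ ∧ a * b = Ideal.span {algebraMap A R g} ∧
      colen k a + colen k b = d * N ∧ cl P a * cl P b = 1 := by
  obtain ⟨b, hb⟩ := Ideal.dvd_iff_le.2 ((Ideal.span_singleton_le_iff_mem a).2 h)
  have hb0 : b ≠ ⊥ := by
    rintro rfl
    rw [Ideal.mul_bot] at hb
    exact span_ne_Cls P (R := R) hg hb
  refine ⟨b, hb0, hb.symm, ?_, ?_⟩
  · rw [← colen_mul (k := k) (fun I hI => fin_quot P hI) ha hb0, ← hb, E_colen P hg]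
  · rw [← cl_mul P ha hb0, ← hb, cl_span P hg]

theorem exists_inv (c : Cl P R) : ∃ c' : Cl P R, c' * c = 1 := by
  obtain ⟨I, hI, rfl⟩ := cl_surj P c
  obtain ⟨g, hg, hgI⟩ := exists_E P hI (N := colen k I + P.n1)
    (Nat.le_mul_of_pos_left _ F.one_le)
  obtain ⟨b, -, -, -, h⟩ := compl P hI hg hgI
  refine ⟨cl P b, ?_⟩
  rw [mul_comm]
  exact h

noncomputable instance : CommGroup (Cl P R) where
  inv c := (exists_inv P c).choose
  inv_mul_cancel c := (exists_inv P c).choose_spec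
  mul_comm := mul_comm

end Pool.Agent.CvP
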