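import Pool.Agent.CvP.Cut

/-!
# Package CvP-Cnt: the number of the elements of `E N` in an ideal (page 5.3)

Map `φ : cut a N → (A ⧸ D A) × B`, `s ↦ (s mod D, l N s)`, `k`-linear. Kernel: the `s ∈ V N ∩ a`
with `l N s = 0`, `D ∣ s`:
`N = N' + 1` (as `d N ≥ n1 > 0`), `s ∈ V N'` (`l_succ`), `s = D t`, `t ∈ V (N' - Dl)` (`bez_mem`;
`Dl ≤ N'`), `t ∈ a` as `D` is a
unit of `R`. So the kernel is the image of `cut a (N - 1 - Dl)` under the injective
multiplication by `D`, its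
dimension is `d (N - 1 - Dl) + 1 - pa - colen a` (`cut_dim`), and `cut a N` has dimension `d N +
1 - pa - colen a`.
`A ⧸ D A` has dimension `d Dl` (`bez_eq`), `B` has dimension `d`: `φ` is onto by dimensions. `E N
∩ a` is the fibre
over `(1, 1)`: a coset of the kernel, `q ^ (dimension)` elements. (`exists_E` does not need
`Finite k`.)
-/

set_option autoImplicit false
set_option linter.unusedSectionVars false

namespace Pool.Agent.CvP

open Pool.Agent.CvA Pool.Agent.CvR Pool.Agent.CvI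

variable {k A B : Type} [Field k] [CommRing A] [IsDomain A] [Algebra k A] [CommRing B]
  [Algebra k B] {d : ℕ} {F : Flt k A B d} (P : Md F) {R : Type} [CommRing R] [IsDedekindDomain R]
  [Algebra k R] [Algebra A R] [IsScalarTower k A R] [IsLocalization.Away P.D R]

/-- the map `s ↦ (s mod D, l N s)` -/
private noncomputable def phi_Cnt (a : Ideal R) (N : ℕ) :
    F.cut a N →ₗ[k] (A ⧸ Ideal.span {P.D}) × B :=
  LinearMap.prod ((Ideal.Quotient.mkₐ k (Ideal.span {P.D})).toLinearMap ∘ₗ (F.cut a N).subtype)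
    (F.l N ∘ₗ (F.cut a N).subtype)

private lemma phi_apply_Cnt (a : Ideal R) (N : ℕ) (s : F.cut a N) :
    phi_Cnt P a N s = (Ideal.Quotient.mk (Ideal.span {P.D}) (s : A), F.l N (s : A)) := rfl

omit [IsDomain A] [IsDedekindDomain R] [Algebra k R] [IsScalarTower k A R] in
private lemma mem_cut_Cnt {a : Ideal R} {N : ℕ} {s : A} :
    s ∈ F.cut a N ↔ s ∈ F.V N ∧ algebraMap A R s ∈ a := by
  unfold Flt.cut Flt.cutA
  rw [Submodule.mem_inf, Submodule.restrictScalars_mem, Ideal.mem_comap]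

private lemma D_ne_Cnt : P.D ≠ 0 := by
  intro h0
  have h1 := P.unit
  rw [h0, map_zero, isUnit_zero_iff] at h1
  have h2 : Subsingleton B := subsingleton_of_zero_eq_one h1
  have h3 := F.dimB
  rw [Module.finrank_zero_of_subsingleton] at h3
  have h4 := F.one_le
  omega

private lemma fin_cut_Cnt (a : Ideal R) (N : ℕ) : FiniteDimensional k (F.cut a N) := by
  have := F.fin N
  exact Submodule.finiteDimensional_of_le (inf_le_left : F.cut a N ≤ F.V N)

private lemma unit_D_Cnt : IsUnit (algebraMap A R P.D) := by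
  exact IsLocalization.map_units R (⟨P.D, Submonoid.mem_powers P.D⟩ : Submonoid.powers P.D)

private lemma succ_Cnt (F : Flt k A B d) {n m : ℕ} (h : n = m + 1) {s : A} (hs : s ∈ F.V n) :
    F.l n s = 0 ↔ s ∈ F.V m := by
  subst h
  exact F.l_succ _ _ hs

/-- the kernel is the image of the multiplication by `D` -/
private lemma ker_Cnt (a : Ideal R) (N : ℕ) :
    (LinearMap.ker (phi_Cnt P a (N + 1 + P.Dl))).map (F.cut a (N + 1 + P.Dl)).subtype =
      (F.cut a N).map (LinearMap.mulLeft k P.D) := by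
  have hN : N + 1 + P.Dl = (P.Dl + N) + 1 := by omega
  ext x
  rw [Submodule.mem_map, Submodule.mem_map]
  constructor
  · rintro ⟨s, hs, rfl⟩
    rw [LinearMap.mem_ker, phi_apply_Cnt, Prod.mk_eq_zero, Ideal.Quotient.eq_zero_iff_mem,
      Ideal.mem_span_singleton] at hs
    obtain ⟨⟨t, ht⟩, h2⟩ := hs
    have hs1 := mem_cut_Cnt.1 s.2
    refine ⟨t, mem_cut_Cnt.2 ⟨?_, ?_⟩, ?_⟩
    · refine bez_mem F P.mem P.unit ?_
      rw [← ht]
      exact (succ_Cnt F hN hs1.1).1 h2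
    · have h3 := hs1.2
      rw [ht, map_mul] at h3
      exact (Ideal.unit_mul_mem_iff_mem a (unit_D_Cnt P)).1 h3
    · rw [LinearMap.mulLeft_apply, ← ht]
      rfl
  · rintro ⟨t, ht, rfl⟩
    rw [mem_cut_Cnt] at ht
    have h1 : P.D * t ∈ F.V (P.Dl + N) := F.mul P.mem ht.1
    have h2 : P.D * t ∈ F.V (N + 1 + P.Dl) := by
      rw [hN]
      exact F.mono _ h1
    refine ⟨⟨P.D * t, mem_cut_Cnt.2 ⟨h2, ?_⟩⟩, ?_, rfl⟩
    · rw [map_mul]
      exact a.mul_mem_left _ ht.2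
    · rw [LinearMap.mem_ker, phi_apply_Cnt, Prod.mk_eq_zero, Ideal.Quotient.eq_zero_iff_mem,
        Ideal.mem_span_singleton]
      refine ⟨dvd_mul_right _ _, ?_⟩
      exact (succ_Cnt F hN h2).2 h1

private lemma finrank_ker_Cnt {a : Ideal R} (ha : a ≠ ⊥) {N : ℕ}
    (h : colen k a + d ^ 3 ≤ d * N) :
    Module.finrank k (LinearMap.ker (phi_Cnt P a (N + 1 + P.Dl))) + pa d + colen k a =
      d * N + 1 := by
  rw [← cut_dim P ha h]
  congr 2
  have h1 := (Submodule.equivMapOfInjective (F.cut a (N + 1 + P.Dl)).subtype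
    Subtype.coe_injective (LinearMap.ker (phi_Cnt P a (N + 1 + P.Dl)))).finrank_eq
  have hinj : Function.Injective (LinearMap.mulLeft k P.D) := fun x y hxy =>
    mul_left_cancel₀ (D_ne_Cnt P) hxy
  have h2 := (Submodule.equivMapOfInjective (LinearMap.mulLeft k P.D) hinj
    (F.cut a N)).finrank_eq
  rw [h1, ker_Cnt, ← h2]

private lemma split_Cnt {a : Ideal R} {N : ℕ} (h : colen k a + P.n1 ≤ d * N) :
    ∃ N', N = N' + 1 + P.Dl ∧ colen k a + d ^ 3 ≤ d * N' := by
  have h1 := F.one_le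
  unfold Md.n1 at h
  have hN : 1 + P.Dl ≤ N := by
    by_contra hlt
    have h2 : d * N ≤ d * P.Dl := Nat.mul_le_mul_left d (by omega)
    omega
  obtain ⟨N', rfl⟩ : ∃ N', N = N' + 1 + P.Dl := ⟨N - (1 + P.Dl), by omega⟩
  refine ⟨N', rfl, ?_⟩
  have h3 : d * (N' + 1 + P.Dl) = d * N' + d + d * P.Dl := by ring
  rw [h3] at h
  omega

private lemma surj_Cnt {a : Ideal R} (ha : a ≠ ⊥) {N : ℕ} (h : colen k a + P.n1 ≤ d * N) :
    Function.Surjective (phi_Cnt P a N) := by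
  obtain ⟨N', rfl, h1⟩ := split_Cnt P h
  have hf1 := (bez_le F P.mem (D_ne_Cnt P)).1
  have hf2 := F.finB
  have hf3 := fin_cut_Cnt (F := F) a (N' + 1 + P.Dl)
  have h3 : d * (N' + 1 + P.Dl) = d * N' + d + d * P.Dl := by ring
  have h4 := finrank_ker_Cnt P ha h1
  have h5 := cut_dim P ha (N := N' + 1 + P.Dl) (by omega)
  have h6 := LinearMap.finrank_range_add_finrank_ker (phi_Cnt P a (N' + 1 + P.Dl))
  have h7 : Module.finrank k ((A ⧸ Ideal.span {P.D}) × B) = d * P.Dl + d := by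
    rw [Module.finrank_prod, bez_eq F P.mem P.unit, F.dimB]
  rw [← LinearMap.range_eq_top]
  apply Submodule.eq_top_of_finrank_eq
  rw [h7]
  omega

private lemma exists_fib_Cnt {a : Ideal R} (ha : a ≠ ⊥) {N : ℕ}
    (h : colen k a + P.n1 ≤ d * N) : ∃ s : F.cut a N, phi_Cnt P a N s = (1, 1) :=
  surj_Cnt P ha h (1, 1)

private lemma fib_iff_Cnt {a : Ideal R} {N : ℕ} {s : F.cut a N} :
    phi_Cnt P a N s = (1, 1) ↔ (s : A) ∈ P.E N := by
  rw [phi_apply_Cnt, Prod.mk.injEq, ← map_one (Ideal.Quotient.mk (Ideal.span {P.D})),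
    Ideal.Quotient.eq, Ideal.mem_span_singleton]
  exact ⟨fun h => ⟨(mem_cut_Cnt.1 s.2).1, h.2, h.1⟩, fun h => ⟨h.2.2, h.2.1⟩⟩

theorem exists_E {a : Ideal R} (ha : a ≠ ⊥) {N : ℕ} (h : colen k a + P.n1 ≤ d * N) :
    ∃ g ∈ P.E N, algebraMap A R g ∈ a := by
  obtain ⟨s, hs⟩ := exists_fib_Cnt P ha h
  exact ⟨s, (fib_iff_Cnt P).1 hs, (mem_cut_Cnt.1 s.2).2⟩

theorem card_E [Finite k] {a : Ideal R} (ha : a ≠ ⊥) {N : ℕ} (h : colen k a + P.n1 ≤ d * N) :
    Nat.card {g : A // g ∈ P.E N ∧ algebraMap A R g ∈ a} * Nat.card k ^ (pa d + d * (1 + P.Dl)) =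
      Nat.card k ^ (d * N + 1 - colen k a) := by
  obtain ⟨s, hs⟩ := exists_fib_Cnt P ha h
  have e : {g : A // g ∈ P.E N ∧ algebraMap A R g ∈ a} ≃ LinearMap.ker (phi_Cnt P a N) :=
    { toFun := fun g => ⟨⟨g.1, mem_cut_Cnt.2 ⟨g.2.1.1, g.2.2⟩⟩ - s, by
        rw [LinearMap.mem_ker, map_sub, hs, sub_eq_zero]
        exact (fib_iff_Cnt P).2 g.2.1⟩
      invFun := fun x => ⟨((x.1 + s : F.cut a N) : A), (fib_iff_Cnt P).1 (by
        rw [map_add, LinearMap.mem_ker.1 x.2, hs, zero_add]), (mem_cut_Cnt.1 (x.1 + s).2).2⟩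
      left_inv := fun g => by
        apply Subtype.ext
        simp
      right_inv := fun x => by
        apply Subtype.ext
        apply Subtype.ext
        simp }
  obtain ⟨N', rfl, h1⟩ := split_Cnt P h
  have hf3 := fin_cut_Cnt (F := F) a (N' + 1 + P.Dl)
  have h4 := finrank_ker_Cnt P ha h1
  rw [Nat.card_congr e, Module.natCard_eq_pow_finrank (K := k), ← pow_add]
  congr 1
  have h3 : d * (N' + 1 + P.Dl) = d * N' + d + d * P.Dl := by ring
  have h5 : d * (1 + P.Dl) = d + d * P.Dl := by ring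
  omega

end Pool.Agent.CvP
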