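import Pool.Agent.CvP.Quo

/-!
# Package CvP-Cut: Riemann-Roch for ideals of `R`, generation (page 3.2, 3.3, 6.1)

`cut_dim`, `cut_up`: `rr_dim`, `rr_up` for `comap b` with `comap_fin`, `comap_dim`.

`cut_gen`: for `colen b + 2 d ^ 3 + d ≤ d L` the elements of `V L ∩ b` generate `b`. Let `b'` be
the ideal of `R`
generated by them, `b' ≤ b`; `b' ≠ ⊥` because `cut b L ≠ 0` (`cut_dim`, `pa_le`) and `alg_inj`.
If `b' ≠ b` then
`b' = c * b`, `c ≠ ⊤`, `c ≤ Q`, `Q` maximal, `Q ≠ ⊥` (`Ideal.dvd_iff_le`,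
`Ideal.exists_le_maximal`), `b' ≤ Q * b`.
Then `cut b L ≤ cut (Q * b) L`. But `finrank (cut b L) = d L + 1 - pa - colen b`, and
`finrank (cut (Q * b) L)` is `d L + 1 - pa - colen b - colen Q` if `colen (Q b) + d ^ 3 ≤ d L`
(`colen_mul`,
`colen_pos`), and at most `d ^ 3 + d < 2 d ^ 3 + d + 1 - pa` otherwise (`cut_up`, `pa_le`).
Contradiction.
-/

set_option autoImplicit false

namespace Pool.Agent.CvP

open Pool.Agent.CvA Pool.Agent.CvR Pool.Agent.CvI

variable {k A B : Type} [Field k] [CommRing A] [IsDomain A] [Algebra k A] [CommRing B]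
  [Algebra k B] {d : ℕ} {F : Flt k A B d} (P : Md F) {R : Type} [CommRing R] [IsDedekindDomain R]
  [Algebra k R] [Algebra A R] [IsScalarTower k A R] [IsLocalization.Away P.D R]

include P

theorem cut_dim {b : Ideal R} (hb : b ≠ ⊥) {N : ℕ} (h : colen k b + d ^ 3 ≤ d * N) :
    Module.finrank k (F.cut b N) + pa d + colen k b = d * N + 1 := by
  have hfin : FiniteDimensional k (A ⧸ b.comap (algebraMap A R)) := comap_fin P hb
  have h1 := comap_dim P hb
  have h2 := rr_dim F (b.comap (algebraMap A R)) (N := N) (by rw [h1]; exact h)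
  rw [h1] at h2
  exact h2

theorem cut_up {b : Ideal R} (hb : b ≠ ⊥) {N : ℕ} (h : d * N < colen k b + d ^ 3) :
    Module.finrank k (F.cut b N) ≤ d ^ 3 + d := by
  have hfin : FiniteDimensional k (A ⧸ b.comap (algebraMap A R)) := comap_fin P hb
  have h1 := comap_dim P hb
  exact rr_up F (b.comap (algebraMap A R)) (N := N) (by rw [h1]; exact h)

theorem cut_gen {b : Ideal R} (hb : b ≠ ⊥) {L : ℕ} (h : colen k b + 2 * d ^ 3 + d ≤ d * L) :
    Ideal.span (algebraMap A R '' (F.cut b L : Set A)) = b := by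
  have hfinV := F.fin L
  have hd1 : 1 ≤ d := F.one_le
  have hd2 : d ^ 2 ≤ d ^ 3 := Nat.pow_le_pow_right hd1 (by norm_num)
  have hpa := pa_le d
  have hcd := cut_dim P hb (N := L) (by omega)
  have hfinQ : FinQ k R := fun I hI => fin_quot P hI
  have hmem : ∀ {c : Ideal R} {a : A}, a ∈ F.cut c L ↔ a ∈ F.V L ∧ algebraMap A R a ∈ c := by
    intro c a
    unfold Flt.cut Flt.cutA
    rw [Submodule.mem_inf, Submodule.restrictScalars_mem, Ideal.mem_comap]
  have hle : Ideal.span (algebraMap A R '' (F.cut b L : Set A)) ≤ b := by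
    rw [Ideal.span_le]
    rintro _ ⟨a, ha, rfl⟩
    exact (hmem.1 ha).2
  have hne : Ideal.span (algebraMap A R '' (F.cut b L : Set A)) ≠ ⊥ := by
    intro h0
    have h1 : F.cut b L = ⊥ := by
      rw [Submodule.eq_bot_iff]
      intro a ha
      have h2 : algebraMap A R a ∈ Ideal.span (algebraMap A R '' (F.cut b L : Set A)) :=
        Ideal.subset_span ⟨a, ha, rfl⟩
      rw [h0, Ideal.mem_bot] at h2
      exact (injective_iff_map_eq_zero _).1 (alg_inj P) a h2
    rw [h1, finrank_bot] at hcd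
    omega
  by_contra hcon
  obtain ⟨c, hc⟩ := Ideal.dvd_iff_le.2 hle
  have hc0 : c ≠ ⊥ := by
    rintro rfl
    rw [Ideal.mul_bot] at hc
    exact hne hc
  have hct : c ≠ ⊤ := by
    rintro rfl
    rw [Ideal.mul_top] at hc
    exact hcon hc
  obtain ⟨Q, hQ, hcQ⟩ := Ideal.exists_le_maximal c hct
  have hQ0 : Q ≠ ⊥ := fun h0 => hc0 (le_bot_iff.1 (by rw [← h0]; exact hcQ))
  have hbQ : b * Q ≠ ⊥ := mul_ne_zero hb hQ0
  have hsub : F.cut b L ≤ F.cut (b * Q) L := by
    intro a ha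
    refine hmem.2 ⟨(hmem.1 ha).1, ?_⟩
    have h2 : algebraMap A R a ∈ Ideal.span (algebraMap A R '' (F.cut b L : Set A)) :=
      Ideal.subset_span ⟨a, ha, rfl⟩
    rw [hc] at h2
    exact Ideal.mul_mono_right hcQ h2
  have hcut : F.cut (b * Q) L ≤ F.V L := inf_le_left
  have hfc : FiniteDimensional k (F.cut (b * Q) L) := Submodule.finiteDimensional_of_le hcut
  have hrk : Module.finrank k (F.cut b L) ≤ Module.finrank k (F.cut (b * Q) L) :=
    Submodule.finrank_mono hsub
  have hpos := colen_pos hfinQ hQ0 hQ.ne_top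
  have hmul := colen_mul hfinQ hb hQ0
  by_cases hcase : colen k (b * Q) + d ^ 3 ≤ d * L
  · have h3 := cut_dim P hbQ hcase
    omega
  · have h3 := cut_up P hbQ (N := L) (by omega)
    omega

end Pool.Agent.CvP
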