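import Pool.Agent.CvP.Quo

/-!
# Package CvP-El: the elements of `E N` in `R` (page 5.1, 5.2)

`E_dvd`: let `g ∈ E N`, `algebraMap g ∣ algebraMap a`, `a ∈ V (N + L)`. Then `a = g * b` with `b
∈ V L`. Proof:
`a D ^ i = g c` in `A` for some `i` and `c ∈ A`; `D ∣ g - 1` gives by induction `D ^ i ∣ c` (`c ≡
g c ≡ 0` modulo
`D`; cancel `D`, non zero divisor), so `a = g b`, and `b ∈ V L` by `bez_mem` (`l N g = 1` is a
unit).
`E_ne`: `g ≠ 0` (`l N g = 1 ≠ 0`, `B` is not trivial as `dimB`, `one_le`).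
`E_colen`: `colen (span {g}) = d N`: `comap_dim` and `comap (span {g}) = span {g}` (the argument
of `E_dvd` without the
degree), `bez_eq`.
`E_cancel`: `h ∈ E M`, `r ∈ R`, `algebraMap h * r = algebraMap f`, `f ∈ E L` ⇒ `M ≤ L` and `r =
algebraMap g` with
`g ∈ E (L - M)`. (`M ≤ L` from the colengths, `colen_le` with `fin_quot P`; `E_dvd` gives `g ∈ V
(L - M)` with
`f = h g`; `l L f = l M h * l (L-M) g`; `g - 1 = (f - 1) - (h - 1) g`, so `D ∣ g - 1`.)
`E_unit`: `g, g' ∈ E N` (same `N`) with `span {g} = span {g'}` in `R` ⇒ `g = g'`: `g' = g u`, by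
`E_cancel`
`u = algebraMap w`, `w ∈ E 0`, `w ∈ V 0 = 1`: `w` is a constant `c` with `l 0 c = 1`, so `c = 1`
(`l_zero` for
`c - 1`).
-/

set_option autoImplicit false

namespace Pool.Agent.CvP

open Pool.Agent.CvA Pool.Agent.CvR Pool.Agent.CvI

variable {k A B : Type} [Field k] [CommRing A] [IsDomain A] [Algebra k A] [CommRing B]
  [Algebra k B] {d : ℕ} {F : Flt k A B d} (P : Md F) {R : Type} [CommRing R] [IsDedekindDomain R]
  [Algebra k R] [Algebra A R] [IsScalarTower k A R] [IsLocalization.Away P.D R]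

/-- the case of `E_dvd` without the degree, after clearing denominators -/
private theorem clear_El {N : ℕ} {g : A} (hg : g ∈ P.E N) (i : ℕ) :
    ∀ a c : A, a * P.D ^ i = g * c → ∃ b, a = g * b := by
  obtain ⟨t, ht⟩ := hg.2.2
  by_cases hD : P.D = 0
  · intro a c _
    rw [hD, zero_mul, sub_eq_zero] at ht
    exact ⟨a, by rw [ht, one_mul]⟩
  induction i with
  | zero =>
    intro a c h
    exact ⟨c, by rw [← h, pow_zero, mul_one]⟩
  | succ i ih =>
    intro a c h
    have hc : c = P.D * (a * P.D ^ i - t * c) := by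
      have h1 : g = 1 + P.D * t := by rw [← ht]; ring
      have h2 : g * c = c + P.D * (t * c) := by
        calc g * c = (1 + P.D * t) * c := by rw [← h1]
          _ = c + P.D * (t * c) := by ring
      rw [← h] at h2
      have h3 : c = a * P.D ^ (i + 1) - P.D * (t * c) := by rw [h2]; ring
      calc c = a * P.D ^ (i + 1) - P.D * (t * c) := h3
        _ = P.D * (a * P.D ^ i - t * c) := by ring
    apply ih a (a * P.D ^ i - t * c)
    apply mul_left_cancel₀ hD
    calc P.D * (a * P.D ^ i) = a * P.D ^ (i + 1) := by ring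
      _ = g * c := h
      _ = g * (P.D * (a * P.D ^ i - t * c)) := by rw [← hc]
      _ = P.D * (g * (a * P.D ^ i - t * c)) := by ring

private theorem dvd_El {N : ℕ} {g a : A} (hg : g ∈ P.E N)
    (h : algebraMap A R g ∣ algebraMap A R a) : ∃ b, a = g * b := by
  obtain ⟨r, hr⟩ := h
  obtain ⟨i, c, hc⟩ := IsLocalization.Away.surj P.D r
  apply clear_El P hg i a c
  apply alg_inj P (R := R)
  rw [map_mul, map_mul, map_pow, hr, ← hc]
  ring

theorem E_dvd {N L : ℕ} {g a : A} (hg : g ∈ P.E N) (ha : a ∈ F.V (N + L))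
    (h : algebraMap A R g ∣ algebraMap A R a) : ∃ b ∈ F.V L, a = g * b := by
  obtain ⟨b, hb⟩ := dvd_El P hg h
  refine ⟨b, ?_, hb⟩
  refine bez_mem F hg.1 ?_ (by rw [← hb]; exact ha)
  rw [hg.2.1]
  exact isUnit_one

theorem E_ne {N : ℕ} {g : A} (hg : g ∈ P.E N) : algebraMap A R g ≠ 0 := by
  intro h0
  have hg0 : g = 0 := by
    apply alg_inj P (R := R)
    rw [h0, map_zero]
  have h1 : (0 : B) = 1 := by
    rw [← hg.2.1, hg0, map_zero]
  have hs : Subsingleton B := subsingleton_of_zero_eq_one h1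
  have hd : Module.finrank k B = 0 := Module.finrank_zero_of_subsingleton
  have h2 := F.dimB
  have h3 := F.one_le
  omega

private theorem span_ne_El {N : ℕ} {g : A} (hg : g ∈ P.E N) :
    Ideal.span {algebraMap A R g} ≠ ⊥ := by
  intro h
  rw [Ideal.span_singleton_eq_bot] at h
  exact E_ne P hg h

theorem E_colen {N : ℕ} {g : A} (hg : g ∈ P.E N) :
    colen k (Ideal.span {algebraMap A R g}) = d * N := by
  have hc : (Ideal.span {algebraMap A R g}).comap (algebraMap A R) = Ideal.span {g} := by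
    ext a
    rw [Ideal.mem_comap, Ideal.mem_span_singleton, Ideal.mem_span_singleton]
    constructor
    · intro h
      obtain ⟨b, hb⟩ := dvd_El P hg h
      exact ⟨b, hb⟩
    · exact fun h => map_dvd _ h
  have h1 := comap_dim P (span_ne_El P (R := R) hg)
  rw [hc, bez_eq F hg.1 (by rw [hg.2.1]; exact isUnit_one)] at h1
  exact h1.symm

theorem E_cancel {M L : ℕ} {h f : A} {r : R} (hh : h ∈ P.E M) (hf : f ∈ P.E L)
    (e : algebraMap A R h * r = algebraMap A R f) :
    M ≤ L ∧ ∃ g ∈ P.E (L - M), algebraMap A R g = r := by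
  have hML : M ≤ L := by
    have hle : Ideal.span {algebraMap A R f} ≤ Ideal.span {algebraMap A R h} := by
      rw [Ideal.span_singleton_le_span_singleton]
      exact ⟨r, e.symm⟩
    have h1 := colen_le (k := k) (fun I hI => fin_quot P hI) (span_ne_El P (R := R) hf) hle
    rw [E_colen P hh, E_colen P hf] at h1
    exact Nat.le_of_mul_le_mul_left h1 F.one_le
  refine ⟨hML, ?_⟩
  have hs : M + (L - M) = L := Nat.add_sub_cancel' hML
  obtain ⟨g, hg, hfg⟩ := E_dvd (R := R) P (L := L - M) hh (by rw [hs]; exact hf.1)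
    ⟨r, e.symm⟩
  refine ⟨g, ⟨hg, ?_, ?_⟩, ?_⟩
  · have h2 := F.l_mul hh.1 hg
    rw [hs, ← hfg, hf.2.1, hh.2.1, one_mul] at h2
    exact h2.symm
  · have h3 : g - 1 = (f - 1) - (h - 1) * g := by rw [hfg]; ring
    rw [h3]
    exact dvd_sub hf.2.2 (Dvd.dvd.mul_right hh.2.2 g)
  · apply mul_left_cancel₀ (E_ne P (R := R) hh)
    rw [e, ← map_mul, ← hfg]

theorem E_unit {N : ℕ} {g g' : A} (hg : g ∈ P.E N) (hg' : g' ∈ P.E N)
    (e : Ideal.span {algebraMap A R g} = Ideal.span {algebraMap A R g'}) : g = g' := by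
  have h1 : algebraMap A R g' ∈ Ideal.span {algebraMap A R g} := by
    rw [e]
    exact Ideal.mem_span_singleton_self _
  rw [Ideal.mem_span_singleton] at h1
  obtain ⟨u, hu⟩ := h1
  obtain ⟨-, w, hw, hwu⟩ := E_cancel P hg hg' hu.symm
  rw [Nat.sub_self] at hw
  have h2 : w - 1 = 0 := by
    apply F.l_zero _ (Submodule.sub_mem _ hw.1 (E_one P).1)
    rw [map_sub, hw.2.1, F.l_one, sub_self]
  rw [sub_eq_zero] at h2
  apply alg_inj P (R := R)
  rw [hu, ← hwu, h2, map_one, mul_one]

end Pool.Agent.CvP
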