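import Pool.Agent.CvP.Cut

/-!
# Package CvP-FinI: finitely many ideals of given colength (page 4.3)

`k` finite. Fix `n`, `L = n + 2 d ^ 3 + d` (so `n + 2 d ^ 3 + d ≤ d L`). The map `b ↦ cut b L`
from the ideals of colength
`n` to the subspaces of `V L` is injective (`cut_gen`), and `V L` is a finite set (`F.fin`,
`Module.finite_of_finite`),
so it has finitely many subsets. `fin_quot` is the other field.
-/

set_option autoImplicit false

namespace Pool.Agent.CvP

open Pool.Agent.CvA Pool.Agent.CvR Pool.Agent.CvI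

variable {k A B : Type} [Field k] [Finite k] [CommRing A] [IsDomain A] [Algebra k A] [CommRing B]
  [Algebra k B] {d : ℕ} {F : Flt k A B d} (P : Md F) {R : Type} [CommRing R] [IsDedekindDomain R]
  [Algebra k R] [Algebra A R] [IsScalarTower k A R] [IsLocalization.Away P.D R]

include P

theorem fq : Fq k R := by
  refine ⟨fun I hI => fin_quot P hI, fun n => ?_⟩
  haveI : FiniteDimensional k (F.V (n + 2 * d ^ 3 + d)) := F.fin _
  haveI : Finite (F.V (n + 2 * d ^ 3 + d)) := Module.finite_of_finite k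
  have hL : n + 2 * d ^ 3 + d ≤ d * (n + 2 * d ^ 3 + d) := Nat.le_mul_of_pos_left _ F.one_le
  refine Finite.of_injective (β := Set (F.V (n + 2 * d ^ 3 + d)))
    (fun b => {x | (x : A) ∈ F.cut b.1 (n + 2 * d ^ 3 + d)}) ?_
  rintro ⟨b, hb, hbn⟩ ⟨b', hb', hbn'⟩ h
  have h : {x : F.V (n + 2 * d ^ 3 + d) | (x : A) ∈ F.cut b (n + 2 * d ^ 3 + d)} =
      {x : F.V (n + 2 * d ^ 3 + d) | (x : A) ∈ F.cut b' (n + 2 * d ^ 3 + d)} := h
  have h1 : (F.cut b (n + 2 * d ^ 3 + d) : Set A) = F.cut b' (n + 2 * d ^ 3 + d) := by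
    ext x
    have h2 : ∀ c : Ideal R, x ∈ F.cut c (n + 2 * d ^ 3 + d) → x ∈ F.V (n + 2 * d ^ 3 + d) :=
      fun c hc => hc.1
    constructor
    · intro hx
      have h3 : (⟨x, h2 _ hx⟩ : F.V (n + 2 * d ^ 3 + d)) ∈
          {x : F.V (n + 2 * d ^ 3 + d) | (x : A) ∈ F.cut b' (n + 2 * d ^ 3 + d)} := by
        rw [← h]
        exact hx
      exact h3
    · intro hx
      have h3 : (⟨x, h2 _ hx⟩ : F.V (n + 2 * d ^ 3 + d)) ∈
          {x : F.V (n + 2 * d ^ 3 + d) | (x : A) ∈ F.cut b (n + 2 * d ^ 3 + d)} := by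
        rw [h]
        exact hx
      exact h3
  have h2 := cut_gen P hb (L := n + 2 * d ^ 3 + d) (by rw [hbn]; exact hL)
  have h3 := cut_gen P hb' (L := n + 2 * d ^ 3 + d) (by rw [hbn']; exact hL)
  rw [h1, h3] at h2
  exact Subtype.ext h2.symm

end Pool.Agent.CvP
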