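import Pool.Agent.CvP.Deg
import Pool.Agent.CvP.FinI

/-!
# Package CvP-Num: the number of the ideals of a class (page 5.5)

`card_cls`: `c ∈ Cl`, `n1 ≤ n`, `dg c = n`. The number of the ideals `b` with `colen b = n`, `cl
b = c` times
`q ^ (pa + d (1 + Dl))` is `q ^ (n + 1)`. Choose `a` with `cl a = c⁻¹` (`cl_surj`); `d ∣ n +
colen a` (`dg_cl`, `map_inv`),
`N = (n + colen a) / d`. The map `g ↦ b` with `a b = g R` from `{g ∈ E N, g ∈ a}` (`compl`) to
these
ideals is a bijection: `colen b = d N - colen a = n`, injective by `E_unit`, onto by `cl_gen` for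
`a b` (the number
`N` is right by the colength). Then `card_E`.

`fin_cl`: `Cl` is finite: every class contains an ideal with colength in `[n1, n1 + d)`
(`card_cls`, the number
is not `0`), and there are finitely many ideals of these colengths (`fq P`).
-/

set_option autoImplicit false

namespace Pool.Agent.CvP

open Pool.Agent.CvA Pool.Agent.CvR Pool.Agent.CvI

variable {k A B : Type} [Field k] [Finite k] [CommRing A] [IsDomain A] [Algebra k A] [CommRing B]
  [Algebra k B] {d : ℕ} {F : Flt k A B d} (P : Md F) {R : Type} [CommRing R] [IsDedekindDomain R]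
  [Algebra k R] [Algebra A R] [IsScalarTower k A R] [IsLocalization.Away P.D R]

theorem card_cls (c : Cl P R) {n : ℕ} (h1 : P.n1 ≤ n)
    (h2 : dg P c = Multiplicative.ofAdd ((n : ℕ) : ZMod d)) :
    Nat.card {b : Ideal R // b ≠ ⊥ ∧ colen k b = n ∧ cl P b = c} *
      Nat.card k ^ (pa d + d * (1 + P.Dl)) = Nat.card k ^ (n + 1) := by
  obtain ⟨a, ha, hac⟩ := cl_surj P (c⁻¹)
  have hd1 : 1 ≤ d := F.one_le
  have hdg : Multiplicative.ofAdd ((colen k a : ℕ) : ZMod d) =
      (Multiplicative.ofAdd ((n : ℕ) : ZMod d))⁻¹ := by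
    rw [← dg_cl P ha, hac, map_inv, h2]
  have hz : ((n + colen k a : ℕ) : ZMod d) = 0 := by
    have h3 : ((colen k a : ℕ) : ZMod d) = -((n : ℕ) : ZMod d) := by
      have h4 := congrArg Multiplicative.toAdd hdg
      simpa using h4
    rw [Nat.cast_add, h3]
    ring
  obtain ⟨N, hN⟩ := (ZMod.natCast_eq_zero_iff _ _).1 hz
  have hcE := card_E P ha (N := N) (by omega)
  have he : d * N + 1 - colen k a = n + 1 := by omega
  rw [he] at hcE
  rw [← hcE]
  congr 1
  symm
  have key : ∀ x : {g : A // g ∈ P.E N ∧ algebraMap A R g ∈ a},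
      (compl P ha x.2.1 x.2.2).choose ≠ ⊥ ∧ colen k (compl P ha x.2.1 x.2.2).choose = n ∧
        cl P (compl P ha x.2.1 x.2.2).choose = c := by
    intro x
    obtain ⟨hb, -, hco, hcl⟩ := (compl P ha x.2.1 x.2.2).choose_spec
    refine ⟨hb, by omega, ?_⟩
    exact (eq_inv_of_mul_eq_one_right hcl).trans (by rw [hac, inv_inv])
  refine Nat.card_congr (Equiv.ofBijective (fun x => ⟨(compl P ha x.2.1 x.2.2).choose, key x⟩)
    ⟨?_, ?_⟩)
  · intro x y hxy
    have h5 : (compl P ha x.2.1 x.2.2).choose = (compl P ha y.2.1 y.2.2).choose :=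
      congrArg Subtype.val hxy
    have hx := (compl P ha x.2.1 x.2.2).choose_spec.2.1
    have hy := (compl P ha y.2.1 y.2.2).choose_spec.2.1
    rw [h5, hy] at hx
    exact Subtype.ext (E_unit P x.2.1 y.2.1 hx.symm)
  · rintro ⟨b, hb, hbn, hbc⟩
    have hab : a * b ≠ ⊥ := mul_ne_zero ha hb
    have h1' : cl P (a * b) = 1 := by
      rw [cl_mul P ha hb, hac, hbc]
      exact inv_mul_cancel c
    obtain ⟨N', g, hg, hgs, hgc⟩ := cl_gen P hab h1'
    have hcol : colen k (a * b) = colen k a + colen k b := colen_mul (fq P).fin ha hb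
    have hNN : N' = N := by
      have h6 : d * N' = d * N := by omega
      exact Nat.eq_of_mul_eq_mul_left hd1 h6
    subst hNN
    have hga : algebraMap A R g ∈ a := by
      have h7 : Ideal.span {algebraMap A R g} ≤ a := by
        rw [← hgs]
        exact Ideal.mul_le_left
      exact h7 (Ideal.mem_span_singleton_self _)
    refine ⟨⟨g, hg, hga⟩, ?_⟩
    apply Subtype.ext
    have hx := (compl P ha hg hga).choose_spec.2.1
    have h8 : a * (compl P ha hg hga).choose = a * b := by rw [hx, hgs]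
    exact mul_left_cancel₀ ha h8

variable (R)

theorem fin_cl : Finite (Cl P R) := by
  have hd1 : 1 ≤ d := F.one_le
  have _ : NeZero d := ⟨by omega⟩
  have hf := (fq P (R := R)).num
  have _ : ∀ i : Fin d, Finite {I : Ideal R // I ≠ ⊥ ∧ colen k I = P.n1 + i.1} :=
    fun i => hf _
  refine Finite.of_surjective
    (fun x : (Σ i : Fin d, {I : Ideal R // I ≠ ⊥ ∧ colen k I = P.n1 + i.1}) => cl P x.2.1) ?_
  intro c
  let r : ZMod d := Multiplicative.toAdd (dg P c)
  have hi : ((P.n1 + (r - ((P.n1 : ℕ) : ZMod d)).val : ℕ) : ZMod d) = r := by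
    rw [Nat.cast_add, ZMod.natCast_zmod_val]
    ring
  have hcard := card_cls P c (n := P.n1 + (r - ((P.n1 : ℕ) : ZMod d)).val) (by omega)
    (by rw [hi]; rfl)
  have hne : Nat.card {b : Ideal R // b ≠ ⊥ ∧
      colen k b = P.n1 + (r - ((P.n1 : ℕ) : ZMod d)).val ∧ cl P b = c} ≠ 0 := by
    intro h0
    rw [h0, zero_mul] at hcard
    exact (pow_ne_zero _ (Nat.card_pos (α := k)).ne') hcard.symm
  obtain ⟨⟨b, hb, hbn, hbc⟩⟩ := (Nat.card_ne_zero.1 hne).1
  exact ⟨⟨⟨_, ZMod.val_lt _⟩, ⟨b, hb, hbn⟩⟩, hbc⟩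

end Pool.Agent.CvP
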