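import Pool.Agent.CvR.Cor
import Pool.Agent.CvI.Mul

/-!
# Package CvP-Quo: quotients of the localisation (page 4.1)

`R = A[1/D]`. For a nonzero ideal `b` of `R`: there is `0 ≠ a ∈ A` in `b` (clear denominators; `A
→ R` is injective:
`IsLocalization.injective`, powers of `D` are non zero divisors, `D ≠ 0` as `l Dl D` is a unit in
`B ≠ 0`), `a ∈ V M`, so `A ⧸ comap b` is a quotient of `A ⧸ aA`, finite dimensional (`bez_le`).
The map
`A ⧸ comap b → R ⧸ b` is injective; its image `S` is a finite dimensional subalgebra; the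
multiplication by `D` on `S`
is injective (`D` is a unit in `R ⧸ b`), hence onto; so `D⁻¹ S = S`, and every element of `R` is
`a / D ^ i`
(`IsLocalization.Away`, `IsLocalization.surj`): `S = R ⧸ b`.

`fin_quot`, `comap_fin`, `comap_dim`, `comap_surj` follow. `comap_inj`: `comap b = comap b'`
implies `b = b'`
(`IsLocalization.map_comap`).
-/

set_option autoImplicit false

namespace Pool.Agent.CvP

open Pool.Agent.CvA Pool.Agent.CvR Pool.Agent.CvI

variable {k A B : Type} [Field k] [CommRing A] [IsDomain A] [Algebra k A] [CommRing B]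
  [Algebra k B] {d : ℕ} {F : Flt k A B d} (P : Md F) {R : Type} [CommRing R] [IsDedekindDomain R]
  [Algebra k R] [Algebra A R] [IsScalarTower k A R] [IsLocalization.Away P.D R]

include P

private theorem D_ne_Quo : P.D ≠ 0 := by
  intro h0
  have h1 : IsUnit (F.l P.Dl P.D) := P.unit
  rw [h0, map_zero] at h1
  have h2 : Subsingleton B := by
    rw [isUnit_zero_iff] at h1
    exact subsingleton_of_zero_eq_one h1
  have h3 : Module.finrank k B = 0 := Module.finrank_zero_of_subsingleton
  have h4 := F.dimB
  have h5 := F.one_le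
  omega

theorem alg_inj : Function.Injective (algebraMap A R) := by
  refine IsLocalization.injective R (M := Submonoid.powers P.D) ?_
  exact powers_le_nonZeroDivisors_of_noZeroDivisors (D_ne_Quo P)

private theorem unit_Quo : IsUnit (algebraMap A R P.D) :=
  IsLocalization.Away.algebraMap_isUnit P.D

private theorem mem_Quo {b : Ideal R} {n : ℕ} {r : R} (h : r * algebraMap A R P.D ^ n ∈ b) :
    r ∈ b := by
  have h1 : IsUnit (algebraMap A R P.D ^ n) := (unit_Quo P).pow n
  obtain ⟨v, hv⟩ := h1.exists_right_inv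
  have h2 : r * algebraMap A R P.D ^ n * v ∈ b := b.mul_mem_right v h
  rw [mul_assoc, hv, mul_one] at h2
  exact h2

private theorem exists_Quo {b : Ideal R} (hb : b ≠ ⊥) : ∃ a : A, a ≠ 0 ∧ algebraMap A R a ∈ b := by
  obtain ⟨x, hx, hx0⟩ := Submodule.exists_mem_ne_zero_of_ne_bot hb
  obtain ⟨n, a, ha⟩ := IsLocalization.Away.surj P.D x
  refine ⟨a, ?_, ?_⟩
  · rintro rfl
    rw [map_zero] at ha
    have h1 : IsUnit (algebraMap A R P.D ^ n) := (unit_Quo P).pow n
    exact hx0 (h1.mul_left_eq_zero.mp ha)
  · rw [← ha]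
    exact b.mul_mem_right _ hx

theorem comap_fin {b : Ideal R} (hb : b ≠ ⊥) :
    FiniteDimensional k (A ⧸ b.comap (algebraMap A R)) := by
  obtain ⟨a, ha0, hab⟩ := exists_Quo P hb
  obtain ⟨M, hM⟩ := F.exh a
  have h1 : FiniteDimensional k (A ⧸ Ideal.span {a}) := (bez_le F hM ha0).1
  have h2 : Ideal.span {a} ≤ b.comap (algebraMap A R) := by
    rw [Ideal.span_singleton_le_iff_mem]
    exact hab
  exact Module.Finite.of_surjective (Ideal.Quotient.factorₐ k h2).toLinearMap
    (Ideal.Quotient.factor_surjective h2)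

theorem comap_surj {b : Ideal R} (hb : b ≠ ⊥) (r : R) : ∃ a : A, r - algebraMap A R a ∈ b := by
  have hfin : FiniteDimensional k (A ⧸ b.comap (algebraMap A R)) := comap_fin P hb
  have hinj : Function.Injective (LinearMap.mulLeft k
      (Ideal.Quotient.mk (b.comap (algebraMap A R)) P.D)) := by
    rw [← LinearMap.ker_eq_bot, LinearMap.ker_eq_bot']
    intro x hx
    obtain ⟨a, rfl⟩ := Ideal.Quotient.mk_surjective x
    rw [LinearMap.mulLeft_apply, ← map_mul, Ideal.Quotient.eq_zero_iff_mem, Ideal.mem_comap,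
      map_mul] at hx
    rw [Ideal.Quotient.eq_zero_iff_mem, Ideal.mem_comap]
    refine mem_Quo P (n := 1) ?_
    rw [pow_one, mul_comm]
    exact hx
  have hsur : Function.Surjective (LinearMap.mulLeft k
      (Ideal.Quotient.mk (b.comap (algebraMap A R)) P.D)) :=
    LinearMap.injective_iff_surjective.mp hinj
  have key : ∀ (n : ℕ) (a : A), ∃ a' : A,
      algebraMap A R a - algebraMap A R a' * algebraMap A R P.D ^ n ∈ b := by
    intro n
    induction n with
    | zero =>
      intro a
      refine ⟨a, ?_⟩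
      rw [pow_zero, mul_one, sub_self]
      exact b.zero_mem
    | succ n ih =>
      intro a
      obtain ⟨a1, h1⟩ := ih a
      obtain ⟨y, hy⟩ := hsur (Ideal.Quotient.mk _ a1)
      obtain ⟨a2, rfl⟩ := Ideal.Quotient.mk_surjective y
      rw [LinearMap.mulLeft_apply, ← map_mul, Ideal.Quotient.eq, Ideal.mem_comap, map_sub,
        map_mul] at hy
      refine ⟨a2, ?_⟩
      have h3 := b.mul_mem_right (algebraMap A R P.D ^ n) hy
      have h4 := b.sub_mem h1 h3
      have e : algebraMap A R a - algebraMap A R a2 * algebraMap A R P.D ^ (n + 1) =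
          algebraMap A R a - algebraMap A R a1 * algebraMap A R P.D ^ n -
          (algebraMap A R P.D * algebraMap A R a2 - algebraMap A R a1) *
            algebraMap A R P.D ^ n := by ring
      rw [e]
      exact h4
  obtain ⟨n, a, ha⟩ := IsLocalization.Away.surj P.D r
  obtain ⟨a', h1⟩ := key n a
  refine ⟨a', mem_Quo P (n := n) ?_⟩
  rw [sub_mul, ha]
  exact h1

private theorem bij_Quo {b : Ideal R} (hb : b ≠ ⊥) :
    Function.Bijective (Ideal.quotientMapₐ (I := b.comap (algebraMap A R)) b
      (IsScalarTower.toAlgHom k A R) le_rfl) := by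
  constructor
  · exact Ideal.quotientMap_injective
  · intro x
    obtain ⟨r, rfl⟩ := Ideal.Quotient.mk_surjective x
    obtain ⟨a, ha⟩ := comap_surj P hb r
    refine ⟨Ideal.Quotient.mk _ a, ?_⟩
    symm
    rw [Ideal.quotientMapₐ]
    exact Ideal.Quotient.eq.mpr ha

theorem fin_quot {b : Ideal R} (hb : b ≠ ⊥) : FiniteDimensional k (R ⧸ b) := by
  have hfin : FiniteDimensional k (A ⧸ b.comap (algebraMap A R)) := comap_fin P hb
  exact Module.Finite.of_surjective (Ideal.quotientMapₐ (I := b.comap (algebraMap A R)) b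
      (IsScalarTower.toAlgHom k A R) le_rfl).toLinearMap (bij_Quo P hb).2

theorem comap_dim {b : Ideal R} (hb : b ≠ ⊥) :
    Module.finrank k (A ⧸ b.comap (algebraMap A R)) = colen k b :=
  LinearEquiv.finrank_eq (LinearEquiv.ofBijective (Ideal.quotientMapₐ
    (I := b.comap (algebraMap A R)) b (IsScalarTower.toAlgHom k A R) le_rfl).toLinearMap
      (bij_Quo P hb))

end Pool.Agent.CvP
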