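import Pool.Agent.CvP.El
import Pool.Agent.CvP.Cnt

/-!
# Package CvP-Rel: the ray class congruence (page 5.4)

`rel P R`: the congruence on the monoid of the nonzero ideals of `R`: `I ~ J` iff `g I = h J` for
some `g ∈ E N`,
`h ∈ E M`. Reflexive (`E_one`), symmetric, transitive and multiplicative by `E_mul`
(`Ideal.span_singleton_mul_span_singleton`).

`Cl P R`: the quotient. `cl I` the class of a nonzero ideal. `cl_eq`: `cl I = cl J ↔ ...`
(`Con.eq`).
-/

set_option autoImplicit false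

namespace Pool.Agent.CvP

open Pool.Agent.CvA Pool.Agent.CvR Pool.Agent.CvI
open scoped nonZeroDivisors

variable {k A B : Type} [Field k] [CommRing A] [IsDomain A] [Algebra k A] [CommRing B]
  [Algebra k B] {d : ℕ} {F : Flt k A B d} (P : Md F) (R : Type) [CommRing R] [IsDedekindDomain R]
  [Algebra k R] [Algebra A R] [IsScalarTower k A R] [IsLocalization.Away P.D R]

/-- the congruence modulo the elements of the sets `E N` -/
def rel : Con (Ideal R)⁰ where
  r I J := ∃ (N M : ℕ) (g h : A), g ∈ P.E N ∧ h ∈ P.E M ∧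
    Ideal.span {algebraMap A R g} * (I : Ideal R) = Ideal.span {algebraMap A R h} * (J : Ideal R)
  iseqv := by
    refine ⟨fun I => ?_, fun {I J} h => ?_, fun {I J K} h1 h2 => ?_⟩
    · exact ⟨0, 0, 1, 1, E_one P, E_one P, rfl⟩
    · obtain ⟨N, M, g, h, hg, hh, e⟩ := h
      exact ⟨M, N, h, g, hh, hg, e.symm⟩
    · obtain ⟨N, M, g, h, hg, hh, e⟩ := h1
      obtain ⟨N', M', g', h', hg', hh', e'⟩ := h2
      refine ⟨N' + N, M + M', g' * g, h * h', E_mul P hg' hg, E_mul P hh hh', ?_⟩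
      rw [map_mul, map_mul, ← Ideal.span_singleton_mul_span_singleton,
        ← Ideal.span_singleton_mul_span_singleton, mul_assoc, e, mul_left_comm, e', mul_assoc]
  mul' := by
    intro I J I' J' h1 h2
    obtain ⟨N, M, g, h, hg, hh, e⟩ := h1
    obtain ⟨N', M', g', h', hg', hh', e'⟩ := h2
    refine ⟨N + N', M + M', g * g', h * h', E_mul P hg hg', E_mul P hh hh', ?_⟩
    rw [map_mul, map_mul, ← Ideal.span_singleton_mul_span_singleton,
      ← Ideal.span_singleton_mul_span_singleton, Submonoid.coe_mul, Submonoid.coe_mul,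
      mul_mul_mul_comm, e, e', mul_mul_mul_comm]

/-- the ray class group -/
abbrev Cl : Type := (rel P R).Quotient

variable {R}

/-- the class of a nonzero ideal -/
noncomputable def cl (I : Ideal R) : Cl P R :=
  open Classical in
  if h : I ≠ ⊥ then (((⟨I, mem_nonZeroDivisors_of_ne_zero h⟩ : (Ideal R)⁰)) : (rel P R).Quotient)
    else 1

private theorem cl_pos_Rel {I : Ideal R} (hI : I ≠ ⊥) : cl P I =
    (((⟨I, mem_nonZeroDivisors_of_ne_zero hI⟩ : (Ideal R)⁰)) : (rel P R).Quotient) := by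
  unfold cl
  exact dif_pos hI

theorem cl_eq {I J : Ideal R} (hI : I ≠ ⊥) (hJ : J ≠ ⊥) : cl P I = cl P J ↔
    ∃ (N M : ℕ) (g h : A), g ∈ P.E N ∧ h ∈ P.E M ∧
      Ideal.span {algebraMap A R g} * I = Ideal.span {algebraMap A R h} * J := by
  rw [cl_pos_Rel P hI, cl_pos_Rel P hJ, Con.eq]
  rfl

theorem cl_mul {I J : Ideal R} (hI : I ≠ ⊥) (hJ : J ≠ ⊥) : cl P (I * J) = cl P I * cl P J := by
  have hIJ : I * J ≠ ⊥ := mul_ne_zero hI hJ
  rw [cl_pos_Rel P hI, cl_pos_Rel P hJ, cl_pos_Rel P hIJ, ← Con.coe_mul]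
  rfl

theorem cl_surj (c : Cl P R) : ∃ I : Ideal R, I ≠ ⊥ ∧ cl P I = c := by
  induction c using Con.induction_on with
  | H x =>
    have hx : (x : Ideal R) ≠ ⊥ := nonZeroDivisors.ne_zero x.2
    exact ⟨x, hx, cl_pos_Rel P hx⟩

end Pool.Agent.CvP
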